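import Pool.Agent.helper74.NU.Q2
import Pool.Agent.helper78.NU.Q6a
import Pool.Agent.helper69.NU.A9

set_option autoImplicit false
set_option linter.all false

/-! Module Q6b: jets and the excess. -/

open MeasureTheory Filter Topology Set
open scoped ContDiff Manifold Matrix ENNReal ComplexOrder

noncomputable section

namespace Pool.Agent.helper63.NU

variable {n : ℕ}

namespace Q6b

theorem dz_congr' {f g : E n → ℂ} {p : E n} (h : f =ᶠ[𝓝 p] g) (j : Fin n) :
    dz j f =ᶠ[𝓝 p] dz j g := by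
  filter_upwards [h.fderiv (𝕜 := ℝ)] with y hy
  unfold dz
  rw [hy]

theorem tc_congr {f g : E n → ℂ} {p : E n} (l : ℕ) (α : Fin l → Fin n) (h : f =ᶠ[𝓝 p] g) :
    tc l α f =ᶠ[𝓝 p] tc l α g := by
  induction l generalizing f g with
  | zero => exact h
  | succ l ih => exact ih _ (dz_congr' h _)

theorem tc_comb {U : Set (E n)} (hU : IsOpen U) (l : ℕ) (α : Fin l → Fin n) (c : ℂ) {f g : E n → ℂ}
    (hf : DifferentiableOn ℂ f U) (hg : DifferentiableOn ℂ g U) {p : E n} (hp : p ∈ U) :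
    tc l α (fun y => f y + c * g y) p = tc l α f p + c * tc l α g p := by
  induction l generalizing f g with
  | zero => rfl
  | succ l ih =>
    have h1 : dz (α 0) (fun y => f y + c * g y) =ᶠ[𝓝 p]
        fun y => dz (α 0) f y + c * dz (α 0) g y := by
      filter_upwards [hU.mem_nhds hp] with y hy
      have hfy := hf.differentiableAt (hU.mem_nhds hy)
      have hgy := hg.differentiableAt (hU.mem_nhds hy)
      rw [A9aux.dz_hol' (f := fun y => f y + c * g y) (hfy.add (hgy.const_mul c)), A9aux.dz_hol' hfy, A9aux.dz_hol' hgy]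
      rw [fderiv_fun_add hfy (hgy.const_mul c), fderiv_const_mul hgy]
      simp
    show tc l _ (dz (α 0) _) p = _
    rw [(tc_congr l _ h1).eq_of_nhds]
    exact ih _ (A9aux.hol_dz hU hf _) (A9aux.hol_dz hU hg _)

open MvPolynomial in
/-- Taylor polynomial of degree `l` -/
def tp (f : E n → ℂ) (p : E n) (l : ℕ) : MvPolynomial (Fin n) ℂ :=
  ∑ α : Fin l → Fin n, C (((l.factorial : ℂ))⁻¹ * tc l α f p) * ∏ i, X (α i)

theorem eval_tp (f : E n → ℂ) (p : E n) (l : ℕ) (v : E n) :
    MvPolynomial.eval v (tp f p l) = A9aux.ser f p l (fun _ => v) := by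
  rw [A9aux.ser_apply]
  unfold tp
  rw [map_sum, Finset.mul_sum]
  refine Finset.sum_congr rfl fun α _ => ?_
  simp only [map_mul, map_prod, MvPolynomial.eval_C, MvPolynomial.eval_X]
  ring

theorem tp_hom (f : E n → ℂ) (p : E n) (l : ℕ) : (tp f p l).IsHomogeneous l := by
  unfold tp
  refine MvPolynomial.IsHomogeneous.sum _ _ _ fun α _ => ?_
  have h1 := (MvPolynomial.isHomogeneous_C (Fin n) (((l.factorial : ℂ))⁻¹ * tc l α f p)).mul
    (MvPolynomial.IsHomogeneous.prod Finset.univ (fun i => (MvPolynomial.X (α i) : MvPolynomial (Fin n) ℂ))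
      (fun _ => 1) (fun i _ => MvPolynomial.isHomogeneous_X ℂ (α i)))
  simpa using h1

theorem tp_comb {U : Set (E n)} (hU : IsOpen U) (l : ℕ) (c : ℂ) {f g : E n → ℂ}
    (hf : DifferentiableOn ℂ f U) (hg : DifferentiableOn ℂ g U) {p : E n} (hp : p ∈ U) :
    tp (fun y => f y + c * g y) p l = tp f p l + MvPolynomial.C c * tp g p l := by
  unfold tp
  rw [Finset.mul_sum, ← Finset.sum_add_distrib]
  refine Finset.sum_congr rfl fun α _ => ?_
  rw [tc_comb hU l α c hf hg hp, ← mul_assoc, ← map_mul, ← add_mul, ← map_add]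
  congr 2
  ring

/-- vanishing of the Taylor polynomials -/
theorem vanO_of_tp {U : Set (E n)} (hU : IsOpen U) {f : E n → ℂ} (hf : DifferentiableOn ℂ f U)
    {p : E n} (hp : p ∈ U) (m : ℕ) (h : ∀ l < m, tp f p l = 0) : VanO f p m := by
  have h1 := (A9aux.hasFPowerSeriesAt hU hf hp).isBigO_sub_partialSum_pow m
  obtain ⟨K, hK⟩ := h1.bound
  refine ⟨K, ?_⟩
  have h2 : Tendsto (fun y => y - p) (𝓝 p) (𝓝 0) := by
    have : Tendsto (fun y => y - p) (𝓝 p) (𝓝 (p - p)) := (continuous_id.sub continuous_const).tendsto p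
    simpa using this
  filter_upwards [h2.eventually hK] with y hy
  have h3 : (A9aux.ser f p).partialSum m (y - p) = 0 := by
    unfold FormalMultilinearSeries.partialSum
    refine Finset.sum_eq_zero fun l hl => ?_
    rw [← eval_tp, h l (Finset.mem_range.1 hl), map_zero]
  rw [h3, sub_zero, add_sub_cancel] at hy
  simpa using hy

/-- the multiindices of degree `< m` -/
def MI (n m : ℕ) : Finset (Σ _ : ℕ, Fin n →₀ ℕ) :=
  (Finset.range m).sigma fun l => Finset.finsuppAntidiag Finset.univ l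

theorem card_MI (n m : ℕ) (hm : 1 ≤ m) : (MI n m).card = (m - 1 + n).choose n := by
  unfold MI
  rw [Finset.card_sigma]
  simp only [Finset.card_finsuppAntidiag_nat_eq_choose, Finset.card_univ, Fintype.card_fin]
  induction m, hm using Nat.le_induction with
  | base => simp
  | succ m hm ih =>
    rw [Finset.sum_range_succ, ih]
    rcases Nat.eq_zero_or_pos n with rfl | hn
    · simp only [Nat.choose_zero_right, zero_add]
      rw [Nat.choose_eq_zero_of_lt (by omega)]
    · obtain ⟨n, rfl⟩ : ∃ n', n = n' + 1 := ⟨n - 1, by omega⟩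
      obtain ⟨m, rfl⟩ : ∃ m', m = m' + 1 := ⟨m - 1, by omega⟩
      have e1 : m + 1 + 1 - 1 + (n + 1) = (m + n + 1) + 1 := by omega
      have e2 : m + 1 - 1 + (n + 1) = m + n + 1 := by omega
      have e3 : n + 1 + (m + 1) - 1 = m + n + 1 := by omega
      rw [e1, e2, e3, Nat.choose_succ_succ (m + n + 1) n, add_comm]
      congr 1
      rw [← Nat.choose_symm_of_eq_add (show m + n + 1 = (m + 1) + n by omega)]

end Q6b

open Q6b

section

variable {M : Type*} [TopologicalSpace M] [ChartedSpace (E n) M]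
  [IsManifold 𝓘(ℂ, E n) ω M]
variable [CompactSpace M] [T2Space M] [ConnectedSpace M]
variable [MeasurableSpace M] [BorelSpace M] {μ : Measure M} {φ : Fam n M ℝ}

theorem VV_le (K : ℕ) (e : Ch n M) (p : E n) (m : ℕ) : VV K e p m ≤ H0 n M K := fun _ h => h.1

/-- the coefficients of the jet -/
def jetMap (K : ℕ) {e : Ch n M} (he : e ∈ atlas (E n) M) {p : E n} (hp : p ∈ e.target) (m : ℕ) :
    H0 n M K →ₗ[ℂ] ({x // x ∈ MI n m} → ℂ) where
  toFun s := fun γ => MvPolynomial.coeff γ.1.2 (tp (s.1 e) p γ.1.1)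
  map_add' s t := by
    funext γ
    have h := tp_comb e.open_target γ.1.1 1 (s.2.1.hol e he) (t.2.1.hol e he) hp
    simp only [one_mul, map_one] at h
    show MvPolynomial.coeff γ.1.2 (tp (fun y => s.1 e y + t.1 e y) p γ.1.1) = _
    rw [h, MvPolynomial.coeff_add]
    rfl
  map_smul' c s := by
    funext γ
    have h := tp_comb e.open_target γ.1.1 c (f := fun _ => 0) (g := s.1 e) (U := e.target)
      (differentiableOn_const _) (s.2.1.hol e he) hp
    have h0 := tp_comb e.open_target γ.1.1 (-1) (f := s.1 e) (g := s.1 e) (U := e.target)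
      (s.2.1.hol e he) (s.2.1.hol e he) hp
    have h1 : (fun y => s.1 e y + -1 * s.1 e y) = fun _ => 0 := by
      funext y; ring
    rw [h1] at h0
    have h2 : tp (fun _ : E n => (0 : ℂ)) p γ.1.1 = 0 := by
      rw [h0, map_neg, map_one]; ring
    show MvPolynomial.coeff γ.1.2 (tp (fun y => c * s.1 e y) p γ.1.1) = _
    simp only [zero_add] at h
    rw [h, h2, zero_add, MvPolynomial.coeff_C_mul]
    rfl

theorem ker_jetMap (K : ℕ) {e : Ch n M} (he : e ∈ atlas (E n) M) {p : E n} (hp : p ∈ e.target)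
    (m : ℕ) : (LinearMap.ker (jetMap K he hp m)).map (H0 n M K).subtype ≤ VV K e p m := by
  rintro _ ⟨s, hs, rfl⟩
  refine ⟨s.2, vanO_of_tp e.open_target (s.2.1.hol e he) hp m fun l hl => ?_⟩
  ext γ
  rw [MvPolynomial.coeff_zero]
  by_cases hγ : γ.degree = l
  · have h1 : (⟨l, γ⟩ : Σ _ : ℕ, Fin n →₀ ℕ) ∈ MI n m := by
      unfold MI
      rw [Finset.mem_sigma]
      refine ⟨Finset.mem_range.2 hl, ?_⟩
      rw [Finset.mem_finsuppAntidiag]
      refine ⟨?_, Finset.subset_univ _⟩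
      rw [← hγ, Finsupp.degree_eq_sum]
    have h2 := congrFun (LinearMap.mem_ker.1 hs) ⟨_, h1⟩
    exact h2
  · exact (tp_hom (s.1 e) p l).coeff_eq_zero hγ

/-- jets of order `< m` impose at most `C(m-1+n, n)` conditions -/
theorem finrank_VV_ge (hφ : IsPos 1 φ) (hμ : IsDens μ φ) {K : ℕ} (hK : 1 ≤ K) {e : Ch n M}
    (he : e ∈ atlas (E n) M) {p : E n} (hp : p ∈ e.target) {m : ℕ} (hm : 1 ≤ m) :
    Module.finrank ℂ (H0 n M K) ≤ Module.finrank ℂ (VV K e p m) + (m - 1 + n).choose n := by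
  haveI : FiniteDimensional ℂ (H0 n M K) := H0_finiteDimensional hφ hμ hK
  haveI : FiniteDimensional ℂ (VV K e p m) :=
    Submodule.finiteDimensional_of_le (VV_le K e p m)
  have h1 := LinearMap.finrank_range_add_finrank_ker (jetMap K he hp m)
  have h2 : Module.finrank ℂ (LinearMap.range (jetMap K he hp m)) ≤ (m - 1 + n).choose n := by
    refine (Submodule.finrank_le _).trans ?_
    rw [Module.finrank_fintype_fun_eq_card, Fintype.card_coe, card_MI n m hm]
  have h3 : Module.finrank ℂ (LinearMap.ker (jetMap K he hp m)) ≤ Module.finrank ℂ (VV K e p m) := by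
    rw [← Submodule.finrank_map_subtype_eq (H0 n M K)]
    exact Submodule.finrank_mono (ker_jetMap K he hp m)
  omega

theorem sum_choose (n D : ℕ) :
    ∑ m ∈ Finset.Icc 1 D, ((m - 1 + n).choose n : ℝ) = ((D + n).choose (n + 1) : ℝ) := by
  induction D with
  | zero => simp
  | succ D ih =>
    rw [Finset.sum_Icc_succ_top (by omega), ih, show D + 1 - 1 + n = D + n by omega,
      show D + 1 + n = (D + n) + 1 by omega, Nat.choose_succ_succ]
    push_cast
    ring

theorem choose_bound (n : ℕ) {δ : ℝ} (hδ : 0 < δ) : ∃ K₀ : ℕ, ∀ K ≥ K₀,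
    ((((n + 1) * K + n).choose (n + 1) : ℕ) : ℝ)
      ≤ ((n + 1) ^ n / n.factorial) * (1 + δ) * (K : ℝ) ^ (n + 1) := by
  have hlim : Tendsto (fun K : ℕ => (((K : ℝ) + 1) / K) ^ (n + 1)) atTop (𝓝 1) := by
    have h1 : Tendsto (fun K : ℕ => 1 + (1 : ℝ) / K) atTop (𝓝 (1 + 0)) :=
      tendsto_const_nhds.add tendsto_one_div_atTop_nhds_zero_nat
    have h2 : Tendsto (fun K : ℕ => (1 + (1 : ℝ) / K) ^ (n + 1)) atTop (𝓝 ((1 + 0) ^ (n + 1))) :=
      h1.pow _
    rw [add_zero, one_pow] at h2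
    refine h2.congr' ?_
    filter_upwards [eventually_gt_atTop 0] with K hK
    have : (K : ℝ) ≠ 0 := by positivity
    congr 1
    field_simp
  have h3 := hlim.eventually (gt_mem_nhds (show (1 : ℝ) < 1 + δ by linarith))
  obtain ⟨K₁, hK₁⟩ := eventually_atTop.1 h3
  refine ⟨max K₁ 1, fun K hK => ?_⟩
  have hK1 : 0 < (K : ℝ) := by
    have : 1 ≤ K := le_trans (le_max_right _ _) hK
    positivity
  have h4 := (hK₁ K (le_trans (le_max_left _ _) hK)).le
  rw [div_pow, div_le_iff₀ (by positivity)] at h4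
  calc ((((n + 1) * K + n).choose (n + 1) : ℕ) : ℝ)
      ≤ ((((n + 1) * K + n : ℕ) : ℝ)) ^ (n + 1) / ((n + 1).factorial : ℝ) :=
        Nat.choose_le_pow_div _ _
    _ ≤ (((n : ℝ) + 1) * (K + 1)) ^ (n + 1) / ((n + 1).factorial : ℝ) := by
        gcongr
        push_cast
        nlinarith
    _ = ((n + 1) ^ n / n.factorial) * ((K : ℝ) + 1) ^ (n + 1) := by
        rw [mul_pow, pow_succ ((n : ℝ) + 1), Nat.factorial_succ]
        push_cast
        field_simp
    _ ≤ ((n + 1) ^ n / n.factorial) * ((1 + δ) * (K : ℝ) ^ (n + 1)) := by gcongr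
    _ = _ := by ring

/-- the excess and the defect are small -/
theorem excess [IsProbabilityMeasure μ] (hn : 0 < n) (hφ : IsPos 1 φ) (hμ : IsDens μ φ)
    (hdl : ∀ x, dl φ x = (Real.pi * (n + 1)) ^ n / n.factorial)
    (hdim : ∀ η > 0, ∃ k₀ : ℕ, ∀ k ≥ k₀, (Module.finrank ℂ (H0 n M k) : ℝ)
      ≤ ((n + 1) ^ n / n.factorial + η) * (k : ℝ) ^ n)
    {δ : ℝ} (hδ : 0 < δ) : ∃ K₀ : ℕ, ∀ K ≥ K₀, ∀ e ∈ atlas (E n) M, ∀ p ∈ e.target,
      (∀ A : ℕ, (∑ m ∈ Finset.Icc ((n + 1) * K + 1) A, (Module.finrank ℂ (VV K e p m) : ℝ))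
        ≤ δ * (K : ℝ) ^ (n + 1)) ∧
      (∑ m ∈ Finset.Icc 1 ((n + 1) * K), (((m - 1 + n).choose n : ℝ)
        + Module.finrank ℂ (VV K e p m) - Module.finrank ℂ (H0 n M K)))
        ≤ δ * (K : ℝ) ^ (n + 1) := by
  set v : ℝ := (n + 1) ^ n / n.factorial with hv
  have hv0 : 0 < v := by positivity
  obtain ⟨K₁, hK₁⟩ := sum_ord (δ := δ / (3 * v)) hn hφ hμ hdl hdim (by positivity)
  obtain ⟨K₂, hK₂⟩ := H0_lower (ε := δ / (3 * (n + 1) * v)) hφ hμ hdl (by positivity)
  obtain ⟨K₃, hK₃⟩ := choose_bound n (δ := δ / (3 * v)) (by positivity)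
  refine ⟨max (max K₁ K₂) (max K₃ 1), fun K hK e he p hp => ?_⟩
  simp only [ge_iff_le, max_le_iff] at hK
  obtain ⟨⟨hk1, hk2⟩, hk3, hk4⟩ := hK
  have hT := hK₁ K hk1 e he p hp
  have hN := hK₂ K hk2
  have hC := hK₃ K hk3
  rw [← hv] at hN hC
  have hK0 : 0 < (K : ℝ) := by positivity
  set Pw : ℝ := (K : ℝ) ^ (n + 1) with hPw
  have hPw0 : 0 < Pw := by positivity
  set N : ℝ := (Module.finrank ℂ (H0 n M K) : ℝ) with hNdef
  -- the main inequality
  have hmain : ((((n + 1) * K + n).choose (n + 1) : ℕ) : ℝ) + (n + δ / (3 * v)) * v * Pw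
      - (n + 1) * K * N ≤ δ * Pw := by
    have h1 : (n + 1) * (K : ℝ) * ((1 - δ / (3 * (n + 1) * v)) * v * (K : ℝ) ^ n)
        ≤ (n + 1) * K * N := by gcongr
    have h2 : (n + 1) * (K : ℝ) * ((1 - δ / (3 * (n + 1) * v)) * v * (K : ℝ) ^ n)
        = ((n + 1) * v - δ / 3) * Pw := by
      rw [hPw, pow_succ]
      field_simp
    have h3 : v * (1 + δ / (3 * v)) * Pw = (v + δ / 3) * Pw := by
      field_simp
    have h4 : (n + δ / (3 * v)) * v * Pw = (n * v + δ / 3) * Pw := by
      field_simp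
    rw [h2] at h1
    rw [h3] at hC
    rw [h4]
    nlinarith
  have hsum : ∀ m ∈ Finset.Icc 1 ((n + 1) * K), N ≤ (Module.finrank ℂ (VV K e p m) : ℝ)
      + ((m - 1 + n).choose n : ℝ) := by
    intro m hm
    have := finrank_VV_ge hφ hμ hk4 he hp (m := m) (Finset.mem_Icc.1 hm).1
    rw [hNdef]
    exact_mod_cast this
  have hcardN : ∑ m ∈ Finset.Icc 1 ((n + 1) * K), N = (n + 1) * K * N := by
    rw [Finset.sum_const, Nat.card_Icc, nsmul_eq_mul]
    push_cast [Nat.add_sub_cancel]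
    ring
  constructor
  · intro A
    rcases Nat.lt_or_ge A ((n + 1) * K + 1) with hA | hA
    · rw [Finset.Icc_eq_empty (by omega), Finset.sum_empty]
      positivity
    · have h1 := hT A
      have h2 : ∑ m ∈ Finset.Icc 1 A, (Module.finrank ℂ (VV K e p m) : ℝ)
          = ∑ m ∈ Finset.Icc 1 ((n + 1) * K), (Module.finrank ℂ (VV K e p m) : ℝ)
            + ∑ m ∈ Finset.Icc ((n + 1) * K + 1) A, (Module.finrank ℂ (VV K e p m) : ℝ) := by
        rw [← Finset.sum_union]
        · congr 1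
          ext m
          simp only [Finset.mem_union, Finset.mem_Icc]
          omega
        · rw [Finset.disjoint_left]
          intro m hm hm'
          simp only [Finset.mem_Icc] at hm hm'
          omega
      have h3 := Finset.sum_le_sum hsum
      rw [hcardN, Finset.sum_add_distrib, sum_choose] at h3
      rw [h2] at h1
      linarith
  · rw [Finset.sum_sub_distrib, Finset.sum_add_distrib, sum_choose, hcardN]
    have h1 := hT ((n + 1) * K)
    linarith

end

end Pool.Agent.helper63.NU
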