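import Pool.Agent.helper74.NU.Q2
import Pool.Agent.helper78.NU.Q6a
import Pool.Agent.helper96.NU.Q6b

set_option autoImplicit false
set_option linter.all false

/-! Module Q6c: the order of vanishing is at most `(n+1)k`. -/

open MeasureTheory Filter Topology Set
open scoped ContDiff Manifold Matrix ENNReal ComplexOrder

noncomputable section

namespace Pool.Agent.helper63.NU

variable {n : ℕ} {M : Type*} [TopologicalSpace M] [ChartedSpace (E n) M]
  [IsManifold 𝓘(ℂ, E n) ω M]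
variable [CompactSpace M] [T2Space M] [ConnectedSpace M]
variable [MeasurableSpace M] [BorelSpace M] {μ : Measure M} {φ : Fam n M ℝ}

namespace Q6c

theorem vanO_mono {f : E n → ℂ} {p : E n} {m j : ℕ} (h : VanO f p m) (hj : j ≤ m) :
    VanO f p j := by
  obtain ⟨K, hK⟩ := h
  refine ⟨|K|, ?_⟩
  have h1 : ∀ᶠ y in 𝓝 p, ‖y - p‖ < 1 := by
    have : Tendsto (fun y => ‖y - p‖) (𝓝 p) (𝓝 ‖p - p‖) :=
      ((continuous_id.sub continuous_const).norm).tendsto p
    rw [sub_self, norm_zero] at this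
    exact this.eventually (gt_mem_nhds one_pos)
  filter_upwards [hK, h1] with y hy h2
  calc ‖f y‖ ≤ K * ‖y - p‖ ^ m := hy
    _ ≤ |K| * ‖y - p‖ ^ m := by gcongr; exact le_abs_self K
    _ ≤ |K| * ‖y - p‖ ^ j :=
      mul_le_mul_of_nonneg_left (pow_le_pow_of_le_one (norm_nonneg _) h2.le hj) (abs_nonneg K)

theorem vanO_pow {f : E n → ℂ} {p : E n} {m : ℕ} (h : VanO f p m) (l : ℕ) :
    VanO (f ^ l) p (m * l) := by
  obtain ⟨K, hK⟩ := h
  refine ⟨|K| ^ l, ?_⟩
  filter_upwards [hK] with y hy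
  rw [Pi.pow_apply, norm_pow, pow_mul, ← mul_pow]
  gcongr
  calc ‖f y‖ ≤ K * ‖y - p‖ ^ m := hy
    _ ≤ |K| * ‖y - p‖ ^ m := by gcongr; exact le_abs_self K

theorem vanO_mul {f g : E n → ℂ} {p : E n} {m : ℕ} (h : VanO f p m) (hg : ContinuousAt g p) :
    VanO (f * g) p m := by
  obtain ⟨K, hK⟩ := h
  refine ⟨|K| * (‖g p‖ + 1), ?_⟩
  have h1 : ∀ᶠ y in 𝓝 p, ‖g y‖ < ‖g p‖ + 1 :=
    hg.norm.eventually_lt continuousAt_const (by linarith)
  filter_upwards [hK, h1] with y hy h2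
  rw [Pi.mul_apply, norm_mul]
  calc ‖f y‖ * ‖g y‖ ≤ (|K| * ‖y - p‖ ^ m) * (‖g p‖ + 1) := by
        gcongr
        exact hy.trans (by gcongr; exact le_abs_self K)
    _ = _ := by ring

theorem pow_ne_zero_of {k : ℕ} {s : Fam n M ℂ} (hs : s ∈ H0 n M k) (hs0 : s ≠ 0) (l : ℕ)
    (hl : 1 ≤ l) : s ^ l ≠ 0 := by
  induction l, hl using Nat.le_induction with
  | base => rwa [pow_one]
  | succ l hl ih =>
    rw [pow_succ]
    exact H0_mul_ne_zero (H0_pow hs l hl) hs ih hs0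

end Q6c

open Q6c

/-- the order of vanishing of a section of `-kK` is at most `(n+1)k` -/
theorem star [IsProbabilityMeasure μ] (hn : 0 < n) (hφ : IsPos 1 φ) (hμ : IsDens μ φ)
    (hdl : ∀ x, dl φ x = (Real.pi * (n + 1)) ^ n / n.factorial)
    (hdim : ∀ η > 0, ∃ k₀ : ℕ, ∀ k ≥ k₀, (Module.finrank ℂ (H0 n M k) : ℝ)
      ≤ ((n + 1) ^ n / n.factorial + η) * (k : ℝ) ^ n)
    {k : ℕ} (hk : 1 ≤ k) {e : Ch n M} (he : e ∈ atlas (E n) M) {p : E n} (hp : p ∈ e.target)
    {s : Fam n M ℂ} (hs : s ∈ H0 n M k) (hs0 : s ≠ 0) {m : ℕ} (hv : VanO (s e) p m) :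
    m ≤ (n + 1) * k := by
  by_contra hcon
  have hm : (n + 1) * k + 1 ≤ m := by omega
  have hv1 : VanO (s e) p ((n + 1) * k + 1) := vanO_mono hv hm
  set v : ℝ := (n + 1) ^ n / n.factorial with hvdef
  have hv0 : 0 < v := by positivity
  set D : ℝ := 4 * (n + 1) * k + 1 with hD
  have hD0 : 0 < D := by positivity
  have hkR : (0 : ℝ) < k := by positivity
  obtain ⟨K₁, hK₁⟩ := excess (δ := v / D ^ (n + 1)) hn hφ hμ hdl hdim (by positivity)
  obtain ⟨K₂, hK₂⟩ := H0_lower (ε := 1 / 2) hφ hμ hdl (by norm_num)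
  set k' : ℕ := max (max K₁ K₂) 1 with hk'
  have hk'1 : 1 ≤ k' := le_max_right _ _
  have hk'K : K₁ ≤ k' := (le_max_left _ _).trans (le_max_left _ _)
  have hk'K2 : K₂ ≤ k' := (le_max_right _ _).trans (le_max_left _ _)
  set l : ℕ := 4 * (n + 1) * k' with hl
  have hl1 : 1 ≤ l := by
    rw [hl]
    have : 0 < 4 * (n + 1) * k' := by positivity
    omega
  set K : ℕ := l * k + k' with hK
  have hKge : K₁ ≤ K := by rw [hK]; omega
  have h1 := (hK₁ K hKge e he p hp).1 (((n + 1) * k + 1) * l)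
  have h2 := hK₂ k' hk'K2
  rw [← hvdef] at h2
  -- each space of the excess is large
  have h3 : ∀ j ∈ Finset.Icc ((n + 1) * K + 1) (((n + 1) * k + 1) * l),
      (1 - 1 / 2) * v * (k' : ℝ) ^ n ≤ (Module.finrank ℂ (VV K e p j) : ℝ) := by
    intro j hj
    refine h2.trans ?_
    haveI : FiniteDimensional ℂ (H0 n M K) := H0_finiteDimensional hφ hμ (by omega)
    haveI : FiniteDimensional ℂ (VV K e p j) :=
      Submodule.finiteDimensional_of_le (VV_le K e p j)
    have hmem : ∀ t : H0 n M k', s ^ l * t.1 ∈ VV K e p j := by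
      intro t
      refine ⟨H0_mul (H0_pow hs l hl1) t.2, ?_⟩
      have h4 : VanO ((s e) ^ l) p (((n + 1) * k + 1) * l) := vanO_pow hv1 l
      have h5 : ContinuousAt (t.1 e) p :=
        ((t.2.1.hol e he).differentiableAt (e.open_target.mem_nhds hp)).continuousAt
      exact vanO_mono (vanO_mul h4 h5) (Finset.mem_Icc.1 hj).2
    let T : H0 n M k' →ₗ[ℂ] VV K e p j :=
      { toFun := fun t => ⟨s ^ l * t.1, hmem t⟩
        map_add' := fun t t' => by
          apply Subtype.ext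
          show s ^ l * (t.1 + t'.1) = s ^ l * t.1 + s ^ l * t'.1
          ring
        map_smul' := fun c t => by
          apply Subtype.ext
          show s ^ l * (c • t.1) = c • (s ^ l * t.1)
          rw [mul_smul_comm] }
    have hT : Function.Injective T := by
      rw [← LinearMap.ker_eq_bot, LinearMap.ker_eq_bot']
      intro t ht
      by_contra hne
      have h6 : s ^ l * t.1 = 0 := congrArg Subtype.val ht
      refine H0_mul_ne_zero (H0_pow hs l hl1) t.2 ?_ ?_ h6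
      · exact pow_ne_zero_of hs hs0 l hl1
      · intro h7
        exact hne (Subtype.ext h7)
    exact_mod_cast LinearMap.finrank_le_finrank_of_injective hT
  have h4 := Finset.sum_le_sum h3
  rw [Finset.sum_const, Nat.card_Icc, nsmul_eq_mul] at h4
  have h5 : (3 * (n + 1) * k' : ℝ) ≤ ((((n + 1) * k + 1) * l + 1 - ((n + 1) * K + 1) : ℕ) : ℝ) := by
    have e1 : ((n + 1) * k + 1) * l + 1 - ((n + 1) * K + 1) = 3 * (n + 1) * k' := by
      rw [hK, hl]
      have : ((n + 1) * k + 1) * (4 * (n + 1) * k') + 1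
          = ((n + 1) * (4 * (n + 1) * k' * k + k') + 1) + 3 * (n + 1) * k' := by ring
      omega
    rw [e1]
    push_cast
    exact le_rfl
  have h6 : (K : ℝ) = D * k' := by
    rw [hK, hl, hD]
    push_cast
    ring
  have hk'0 : (0 : ℝ) < k' := by positivity
  have h7 : 3 * (n + 1) * (k' : ℝ) * ((1 - 1 / 2) * v * (k' : ℝ) ^ n) ≤ v * (k' : ℝ) ^ (n + 1) := by
    calc 3 * (n + 1) * (k' : ℝ) * ((1 - 1 / 2) * v * (k' : ℝ) ^ n)
        ≤ ((((n + 1) * k + 1) * l + 1 - ((n + 1) * K + 1) : ℕ) : ℝ)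
          * ((1 - 1 / 2) * v * (k' : ℝ) ^ n) := by
          refine mul_le_mul_of_nonneg_right h5 (by positivity)
      _ ≤ v / D ^ (n + 1) * (K : ℝ) ^ (n + 1) := h4.trans h1
      _ = v * (k' : ℝ) ^ (n + 1) := by
          rw [h6, mul_pow]
          field_simp
  have h8 : 3 * (n + 1) * (k' : ℝ) * ((1 - 1 / 2) * v * (k' : ℝ) ^ n)
      = (3 * (n + 1) / 2) * (v * (k' : ℝ) ^ (n + 1)) := by
    rw [pow_succ]; ring
  rw [h8] at h7
  have h9 : 0 < v * (k' : ℝ) ^ (n + 1) := by positivity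
  have h10 : (0 : ℝ) < n := by exact_mod_cast hn
  nlinarith

end Pool.Agent.helper63.NU
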